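import Pool.Agent.H462R3.VS.Defs

/-!
# Crossing numbers and lower bounds for schedules
-/

namespace Pool.Agent.H462R3.VS

open Pool.Agent.NPC

/-- `1` if the edge from `e` to `e + 1` separates `a` and `b`. -/
def sep (e a b : ℕ) : ℕ := if (a ≤ e ∧ e < b) ∨ (b ≤ e ∧ e < a) then 1 else 0

/-- number of crossings of the edge `e` by a route -/
def cross (e : ℕ) : List ℕ → ℕ
  | a :: b :: l => sep e a b + cross e (b :: l)
  | _ => 0

/-- length of a route -/
def plen (d : ℕ → ℕ → ℕ) : List ℕ → ℕ
  | a :: b :: l => d a b + plen d (b :: l)
  | _ => 0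

theorem sep_triangle (e a b c : ℕ) : sep e a c ≤ sep e a b + sep e b c := by
  unfold sep
  split_ifs <;> omega

theorem cross_cons_le (e a b : ℕ) (l : List ℕ) : cross e (a :: l) ≤ sep e a b + cross e (b :: l) := by
  cases l with
  | nil => simp [cross]
  | cons c l =>
    simp only [cross]
    have := sep_triangle e a b c
    omega

theorem cross_sublist_cons {e : ℕ} {l' l : List ℕ} (h : l'.Sublist l) :
    ∀ a, cross e (a :: l') ≤ cross e (a :: l) := by
  induction h with
  | slnil => intro a; exact le_rfl
  | cons b h ih =>
    intro a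
    refine (cross_cons_le e a b _).trans ?_
    simp only [cross]
    have := ih b
    omega
  | cons_cons b h ih =>
    intro a
    simp only [cross]
    have := ih b
    omega

/-- an instance with symmetric travel times, whose edge lengths are `len` -/
structure Sym (I : Inst) (len : ℕ → ℕ) (M : ℕ) : Prop where
  right : ∀ e, I.right e = len e
  left : ∀ e, I.left e = len e

theorem Sym.travel {I : Inst} {len : ℕ → ℕ} {M : ℕ} (h : Sym I len M) {a b : ℕ} (ha : a ≤ M)
    (hb : b ≤ M) : I.travel a b = ∑ e ∈ Finset.range M, sep e a b * len e := by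
  unfold Inst.travel
  simp only [h.right, h.left]
  have key : ∀ a b, b ≤ M → ∑ e ∈ Finset.Ico a b, len e =
      ∑ e ∈ Finset.range M, (if a ≤ e ∧ e < b then 1 else 0) * len e := by
    intro a b hb
    rw [← Finset.sum_subset (s₁ := Finset.Ico a b) (s₂ := Finset.range M)]
    · refine Finset.sum_congr rfl fun e he => ?_
      rw [Finset.mem_Ico] at he
      rw [if_pos he, one_mul]
    · intro e he
      rw [Finset.mem_Ico] at he
      exact Finset.mem_range.2 (by omega)
    · intro e _ he
      rw [Finset.mem_Ico] at he
      rw [if_neg he, zero_mul]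
  rw [key a b hb, key b a ha, ← Finset.sum_add_distrib]
  refine Finset.sum_congr rfl fun e _ => ?_
  rw [← add_mul]
  congr 1
  unfold sep
  split_ifs <;> omega

theorem Sym.plen_eq {I : Inst} {len : ℕ → ℕ} {M : ℕ} (h : Sym I len M) : ∀ l : List ℕ,
    (∀ v ∈ l, v ≤ M) → plen I.travel l = ∑ e ∈ Finset.range M, cross e l * len e
  | [], _ => by simp [plen, cross]
  | [a], _ => by simp [plen, cross]
  | a :: b :: l, hl => by
    simp only [plen, cross]
    rw [Sym.plen_eq h (b :: l) (fun v hv => hl v (List.mem_cons_of_mem _ hv)),
      h.travel (hl a (by simp)) (hl b (by simp)), ← Finset.sum_add_distrib]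
    refine Finset.sum_congr rfl fun e _ => ?_
    ring

/-- the completion time is at least the travel time plus the handling times -/
theorem finish_ge (I : Inst) : ∀ (π : List ℕ) (t v : ℕ),
    t + plen I.travel (v :: (π ++ [I.start])) + (π.map I.handling).sum ≤ I.finish t v π
  | [], t, v => by simp [Inst.finish, plen]
  | j :: π, t, v => by
    simp only [Inst.finish, List.cons_append, plen, List.map_cons, List.sum_cons]
    have h1 := finish_ge I π (max (t + I.travel v j) (I.release j) + I.handling j) j
    have h2 := le_max_left (t + I.travel v j) (I.release j)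
    omega

/-- a bound using a release time -/
theorem finish_ge_release (I : Inst) (j : ℕ) (π₂ : List ℕ) : ∀ (π₁ : List ℕ) (t v : ℕ),
    I.release j + I.handling j + plen I.travel (j :: (π₂ ++ [I.start])) +
      (π₂.map I.handling).sum ≤ I.finish t v (π₁ ++ j :: π₂)
  | [], t, v => by
    simp only [Inst.finish, List.nil_append]
    have h1 := finish_ge I π₂ (max (t + I.travel v j) (I.release j) + I.handling j) j
    have h2 := le_max_right (t + I.travel v j) (I.release j)
    omega
  | k :: π₁, t, v => by
    simp only [Inst.finish, List.cons_append]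
    exact finish_ge_release I j π₂ π₁ _ _

/-- lower bound for the length of a route by the length of a subroute -/
theorem Sym.plen_mono {I : Inst} {len : ℕ → ℕ} {M : ℕ} (h : Sym I len M) {a : ℕ} {l' l : List ℕ}
    (hs : l'.Sublist l) (hl : ∀ v ∈ a :: l, v ≤ M) :
    plen I.travel (a :: l') ≤ plen I.travel (a :: l) := by
  rw [h.plen_eq _ hl, h.plen_eq]
  · exact Finset.sum_le_sum fun e _ => Nat.mul_le_mul_right _ (cross_sublist_cons hs a)
  · intro v hv
    rcases List.mem_cons.1 hv with rfl | hv
    · exact hl _ (by simp)
    · exact hl v (List.mem_cons_of_mem _ (hs.subset hv))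

end Pool.Agent.H462R3.VS
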