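import Pool.Agent.NPC.Classes

/-!
# Single-vehicle scheduling on a line with release and handling times: definitions

Data are coded by bit strings through the coding `bits` of `Pool.Agent.NPC.Defs` (numbers are
written in binary).
-/

namespace Pool.Agent.H462R3.VS

open Pool.Agent.NPC

/-- An instance of the scheduling problem on a path, together with a bound.  The vertices are
numbered `0, 1, 2, …` along the path.  The four components are
* the list of the travel times: entry `e` is the pair (travel time from vertex `e` to vertex
  `e + 1`, travel time from vertex `e + 1` to vertex `e`);
* the list of the jobs: entry `v` is the pair (release time, handling time) of the job at `v`;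
* the start vertex;
* the bound `K`. -/
abbrev Inst : Type := List (ℕ × ℕ) × List (ℕ × ℕ) × ℕ × ℕ

/-- The travel time from vertex `e` to vertex `e + 1`. -/
def Inst.right (I : Inst) (e : ℕ) : ℕ := (I.1.getD e (0, 0)).1

/-- The travel time from vertex `e + 1` to vertex `e`. -/
def Inst.left (I : Inst) (e : ℕ) : ℕ := (I.1.getD e (0, 0)).2

/-- The number of vertices, which is the number of jobs. -/
def Inst.numV (I : Inst) : ℕ := I.2.1.length

/-- The release time of the job at vertex `v`. -/
def Inst.release (I : Inst) (v : ℕ) : ℕ := (I.2.1.getD v (0, 0)).1

/-- The handling time of the job at vertex `v`. -/
def Inst.handling (I : Inst) (v : ℕ) : ℕ := (I.2.1.getD v (0, 0)).2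

/-- The start vertex. -/
def Inst.start (I : Inst) : ℕ := I.2.2.1

/-- The bound on the completion time. -/
def Inst.bound (I : Inst) : ℕ := I.2.2.2

/-- The instance is well formed and all handling times are positive: there is one more vertex than
there are edges, the start vertex is a vertex, and all handling times are positive. -/
def Inst.Valid (I : Inst) : Prop :=
  I.numV = I.1.length + 1 ∧ I.start < I.numV ∧ ∀ v < I.numV, 0 < I.handling v

/-- The time the vehicle needs to move from vertex `v` to vertex `w` along the path: the sum of the
travel times to the right of the edges between them if `v ≤ w`, and of the travel times to the left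
if `w ≤ v`. -/
def Inst.travel (I : Inst) (v w : ℕ) : ℕ :=
  (∑ e ∈ Finset.Ico v w, I.right e) + ∑ e ∈ Finset.Ico w v, I.left e

/-- The vehicle is at vertex `v` at time `t` and still has to process the jobs of the list `π` in
this order and to return to the start vertex: the time when it is back at the start vertex.  It
moves to the first job, waits for its release time if it arrives earlier, processes it, and so
on. -/
def Inst.finish (I : Inst) : ℕ → ℕ → List ℕ → ℕ
  | t, v, [] => t + I.travel v I.start
  | t, v, j :: π => Inst.finish I (max (t + I.travel v j) (I.release j) + I.handling j) j π

/-- The completion time `C(π)`: the vehicle starts at the start vertex at time `0`. -/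
def Inst.completion (I : Inst) (π : List ℕ) : ℕ := I.finish 0 I.start π

/-- The decision problem: some schedule (a permutation of all jobs) has completion time at most
`K`; the handling times are positive. -/
def LineVehicle (I : Inst) : Prop :=
  I.Valid ∧ ∃ π : List ℕ, π.Perm (List.range I.numV) ∧ I.completion π ≤ I.bound

/-- A simple instance: it is well formed with positive handling times, the start vertex is an end of
the path, and all travel times are positive and do not depend on the direction. -/
def Inst.Simple (I : Inst) : Prop :=
  I.Valid ∧ I.start = 0 ∧ ∀ e < I.1.length, I.right e = I.left e ∧ 0 < I.right e

end Pool.Agent.H462R3.VS
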