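import Pool.Agent.H462R3.VS.Fwd

/-!
# Polynomial time: the reduction
-/

namespace Pool.Agent.NPC.H462VS

open Pool.Agent.H462R3.VS Pool.Agent.NPC.R671.SS

theorem simple_red {x : List ℕ × ℕ} (hp : ∀ a ∈ x.1, 0 < a) : (red x).Simple := by
  refine ⟨valid_red hp, rfl, fun e he => ?_⟩
  have hl : (red x).1.length = 2 * x.1.length + 1 := by simp [red, edgesOf]
  rw [hl] at he
  rw [(sym_red x).right, (sym_red x).left]
  refine ⟨rfl, ?_⟩
  rcases Nat.even_or_odd' e with ⟨k, rfl | rfl⟩
  · rw [lenF_even x.1 (by omega)]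
    exact one_pos
  · have hk : k < x.1.length := by omega
    rw [lenF_odd x.1 hk, List.getD_eq_getElem _ _ hk]
    exact hp _ (List.getElem_mem hk)

theorem poly_XX : Poly XX := by unfold XX; fun_prop

theorem poly_HH : Poly HH := by
  unfold HH
  have := poly_XX
  fun_prop

theorem poly_rstar : Poly rstar := by
  unfold rstar
  have := poly_XX
  have := poly_HH
  fun_prop

theorem poly_KK : Poly KK := by
  unfold KK
  have := poly_XX
  have := poly_HH
  fun_prop

theorem poly_elen : Poly (fun p : List ℕ × ℕ => elen p.1 p.2) := by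
  unfold elen
  fun_prop

theorem poly_edgesOf : Poly edgesOf := by
  unfold edgesOf
  have h : UPoly (fun l : List ℕ => 2 * l.length + 1) :=
    ((UPoly.const 2).mul (UPoly.length Poly.id)).add (UPoly.const 1)
  exact Poly.map (F := fun (l : List ℕ) e => (elen l e, elen l e)) h.range
    (Poly.pair poly_elen poly_elen)

theorem poly_jobOf : Poly (fun p : (List ℕ × ℕ) × ℕ => jobOf p.1 p.2) := by
  unfold jobOf
  have h1 : Poly (fun p : (List ℕ × ℕ) × ℕ => rstar p.1) := poly_rstar.comp (Poly.fst Poly.id)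
  have h2 : Poly (fun p : (List ℕ × ℕ) × ℕ => HH p.1) := poly_HH.comp (Poly.fst Poly.id)
  fun_prop

theorem poly_red : Poly red := by
  unfold red
  have h : UPoly (fun x : List ℕ × ℕ => 2 * x.1.length + 2) :=
    ((UPoly.const 2).mul (UPoly.length (Poly.fst Poly.id))).add (UPoly.const 2)
  refine Poly.pair (poly_edgesOf.comp (Poly.fst Poly.id)) (Poly.pair ?_
    (Poly.pair (Poly.const 0) poly_KK))
  exact Poly.map (F := fun (x : List ℕ × ℕ) e => jobOf x e) h.range poly_jobOf

theorem hardPr_lineVehicle : HardPr Inst.Simple LineVehicle :=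
  hardPr_SubsetSum.trans poly_red (fun _ h => simple_red fun a ha => (h.1 a ha).1)
    (fun _ h => correct fun a ha => (h.1 a ha).1)

end Pool.Agent.NPC.H462VS
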