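import Pool.Agent.H462R3.VS.Red

/-!
# A subset with the right sum gives a good schedule
-/

namespace Pool.Agent.H462R3.VS

open Pool.Agent.NPC Pool.Agent.NPC.R671.SS

/-- positions on the line -/
def pos (l : List ℕ) (v : ℕ) : ℕ := ∑ e ∈ Finset.range v, lenF l e

theorem travel_right (x : List ℕ × ℕ) {a b : ℕ} (h : a ≤ b) :
    (red x).travel a b + pos x.1 a = pos x.1 b := by
  unfold Inst.travel pos
  simp only [(sym_red x).right, (sym_red x).left]
  rw [Finset.Ico_eq_empty_of_le h, Finset.sum_empty, add_zero, add_comm,
    Finset.sum_range_add_sum_Ico _ h]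

theorem travel_left (x : List ℕ × ℕ) {a b : ℕ} (h : b ≤ a) :
    (red x).travel a b + pos x.1 b = pos x.1 a := by
  unfold Inst.travel pos
  simp only [(sym_red x).right, (sym_red x).left]
  rw [Finset.Ico_eq_empty_of_le h, Finset.sum_empty, zero_add, add_comm,
    Finset.sum_range_add_sum_Ico _ h]

theorem pos_big (l : List ℕ) {k : ℕ} (hk : k < l.length) :
    pos l (2 * k + 2) = pos l (2 * k + 1) + l.getD k 0 := by
  unfold pos
  rw [Finset.sum_range_succ, lenF_odd l hk]

/-- the way to the right -/
def fwd (S : ℕ → Bool) : ℕ → List ℕ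
  | 0 => []
  | k + 1 => fwd S k ++ ((2 * k + 2) :: (if S k = true then [2 * k + 1] else []))

/-- the way to the left -/
def ret (S : ℕ → Bool) : ℕ → List ℕ
  | 0 => []
  | k + 1 => (if S k = true then [] else [2 * k + 1]) ++ ret S k

theorem perm_aux (S : ℕ → Bool) : ∀ k, (0 :: (fwd S k ++ ret S k)).Perm (List.range (2 * k + 1))
  | 0 => by simp [fwd, ret]
  | k + 1 => by
    have ih := perm_aux S k
    rw [List.perm_iff_count] at ih ⊢
    intro y
    have h := ih y
    have e : 2 * (k + 1) + 1 = 2 * k + 1 + 1 + 1 := by ring
    rw [e, List.range_succ, List.range_succ]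
    simp only [fwd, ret, List.count_cons, List.count_append, List.count_nil] at h ⊢
    by_cases hS : S k = true
    · simp only [hS, if_true, List.count_cons, List.count_nil]
      omega
    · simp only [hS, if_false, List.count_cons, List.count_nil]
      simp only [Bool.false_eq_true, if_false, List.count_cons, List.count_nil]
      omega

theorem perm_route (S : ℕ → Bool) (n : ℕ) :
    (0 :: (fwd S n ++ (2 * n + 1) :: ret S n)).Perm (List.range (2 * n + 2)) := by
  have h := perm_aux S n
  rw [List.perm_iff_count] at h ⊢
  intro y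
  have h2 := h y
  rw [List.range_succ]
  simp only [List.count_cons, List.count_append, List.count_nil] at h2 ⊢
  omega

/-- partial sums of the selected items -/
def selSum (l : List ℕ) (S : ℕ → Bool) (k : ℕ) : ℕ :=
  ∑ i ∈ Finset.range k, if S i = true then l.getD i 0 else 0

theorem fwd_inv (x : List ℕ × ℕ) (S : ℕ → Bool) : ∀ k ≤ x.1.length, ∃ v ≤ 2 * k, ∀ rest,
    (red x).finish 0 0 (0 :: (fwd S k ++ rest)) =
      (red x).finish (1 + pos x.1 v + k * HH x + 4 * selSum x.1 S k) v rest
  | 0, _ => by
    refine ⟨0, le_rfl, fun rest => ?_⟩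
    have h0 : (red x).travel 0 0 = 0 := by simp [Inst.travel]
    simp only [Inst.finish, fwd, List.nil_append, h0, release_zero, handling_zero]
    simp [pos, selSum]
  | k + 1, hk => by
    obtain ⟨v, hv, h⟩ := fwd_inv x S k (by omega)
    have hk' : k < x.1.length := by omega
    have h1 : selSum x.1 S (k + 1) = selSum x.1 S k + if S k = true then x.1.getD k 0 else 0 := by
      unfold selSum
      rw [Finset.sum_range_succ]
    have h2 := travel_right x (a := v) (b := 2 * k + 2) (by omega)
    have h3 := travel_left x (a := 2 * k + 2) (b := 2 * k + 1) (by omega)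
    have h4 := pos_big x.1 hk'
    have h5 : (k + 1) * HH x = k * HH x + HH x := by ring
    by_cases hS : S k = true
    · refine ⟨2 * k + 1, by omega, fun rest => ?_⟩
      rw [if_pos hS] at h1
      have e : fwd S (k + 1) ++ rest = fwd S k ++ ((2 * k + 2) :: (2 * k + 1) :: rest) := by
        simp [fwd, hS]
      rw [e, h]
      simp only [Inst.finish]
      rw [release_big x hk', handling_big x hk', release_small x hk', handling_small x hk']
      congr 1
      rw [max_eq_left (Nat.zero_le _), max_eq_left (by omega)]
      omega
    · refine ⟨2 * k + 2, by omega, fun rest => ?_⟩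
      rw [if_neg hS] at h1
      have e : fwd S (k + 1) ++ rest = fwd S k ++ ((2 * k + 2) :: rest) := by
        simp [fwd, hS]
      rw [e, h]
      simp only [Inst.finish]
      rw [release_big x hk', handling_big x hk']
      congr 1
      rw [max_eq_left (Nat.zero_le _)]
      omega

theorem ret_inv (x : List ℕ × ℕ) (S : ℕ → Bool) : ∀ k ≤ x.1.length, ∀ t v, 2 * k ≤ v →
    k * HH x ≤ t → (red x).finish t v (ret S k) + 2 * selSum x.1 S k =
      t + pos x.1 v + 2 * ∑ i ∈ Finset.range k, x.1.getD i 0
  | 0, _, t, v, _, _ => by
    have h0 := travel_left x (a := v) (b := 0) (by omega)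
    have h1 : (red x).start = 0 := rfl
    have h2 : pos x.1 0 = 0 := by simp [pos]
    have h3 : selSum x.1 S 0 = 0 := by simp [selSum]
    simp only [ret, Inst.finish, h1, h3, Finset.range_zero, Finset.sum_empty]
    omega
  | k + 1, hk, t, v, hv, ht => by
    have hk' : k < x.1.length := by omega
    have h1 : selSum x.1 S (k + 1) = selSum x.1 S k + if S k = true then x.1.getD k 0 else 0 := by
      unfold selSum
      rw [Finset.sum_range_succ]
    have h5 : (k + 1) * HH x = k * HH x + HH x := by ring
    rw [Finset.sum_range_succ]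
    by_cases hS : S k = true
    · have ih := ret_inv x S k (by omega) t v (by omega) (by omega)
      rw [if_pos hS] at h1
      have e : ret S (k + 1) = ret S k := by simp [ret, hS]
      rw [e]
      omega
    · rw [if_neg hS] at h1
      have e : ret S (k + 1) = (2 * k + 1) :: ret S k := by simp [ret, hS]
      rw [e]
      simp only [Inst.finish]
      rw [release_small x hk', handling_small x hk']
      have h2 := travel_left x (a := v) (b := 2 * k + 1) (by omega)
      rw [max_eq_left (by omega)]
      have ih := ret_inv x S k (by omega) (t + (red x).travel v (2 * k + 1) + 2 * x.1.getD k 0)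
        (2 * k + 1) (by omega) (by omega)
      omega

/-- a sublist gives a set of indices -/
theorem exists_sel {l s : List ℕ} (h : s.Sublist l) :
    ∃ S : ℕ → Bool, selSum l S l.length = s.sum := by
  induction h with
  | slnil => exact ⟨fun _ => false, by simp [selSum]⟩
  | cons a h ih =>
    obtain ⟨S, hS⟩ := ih
    refine ⟨fun i => if i = 0 then false else S (i - 1), ?_⟩
    rw [← hS]
    unfold selSum
    rw [List.length_cons, Finset.sum_range_succ']
    simp
  | cons_cons a h ih =>
    obtain ⟨S, hS⟩ := ih
    refine ⟨fun i => if i = 0 then true else S (i - 1), ?_⟩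
    rw [List.sum_cons, ← hS]
    unfold selSum
    rw [List.length_cons, Finset.sum_range_succ']
    simp [add_comm]

theorem valid_red {x : List ℕ × ℕ} (hp : ∀ a ∈ x.1, 0 < a) : (red x).Valid := by
  refine ⟨?_, ?_, ?_⟩
  · rw [numV_red]
    simp [red, edgesOf]
  · rw [numV_red]
    exact Nat.succ_pos _
  · intro v hv
    rw [numV_red] at hv
    rcases Nat.eq_zero_or_pos v with rfl | h0
    · rw [handling_zero]; exact one_pos
    · rcases Nat.lt_or_ge v (2 * x.1.length + 1) with h1 | h1
      · rcases Nat.even_or_odd' v with ⟨k, rfl | rfl⟩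
        · obtain ⟨j, rfl⟩ : ∃ j, k = j + 1 := ⟨k - 1, by omega⟩
          have := handling_big x (i := j) (by omega)
          rw [show 2 * (j + 1) = 2 * j + 2 by ring, this]
          unfold HH
          omega
        · have hk : k < x.1.length := by omega
          rw [handling_small x hk]
          have : 0 < x.1.getD k 0 := by
            rw [List.getD_eq_getElem _ _ hk]
            exact hp _ (List.getElem_mem hk)
          omega
      · have : v = 2 * x.1.length + 1 := by omega
        rw [this, handling_last]
        exact one_pos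

theorem forward {x : List ℕ × ℕ} (hp : ∀ a ∈ x.1, 0 < a) (h : SubsetSum x) :
    LineVehicle (red x) := by
  refine ⟨valid_red hp, ?_⟩
  obtain ⟨s, hs, hsum⟩ := h
  obtain ⟨S, hS⟩ := exists_sel hs
  rw [hsum] at hS
  refine ⟨0 :: (fwd S x.1.length ++ (2 * x.1.length + 1) :: ret S x.1.length), ?_, ?_⟩
  · rw [numV_red]
    exact perm_route S _
  · obtain ⟨v, hv, h1⟩ := fwd_inv x S x.1.length le_rfl
    have h2 := h1 ((2 * x.1.length + 1) :: ret S x.1.length)
    change (red x).finish 0 0 (0 :: (fwd S x.1.length ++
      (2 * x.1.length + 1) :: ret S x.1.length)) ≤ KK x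
    rw [h2]
    simp only [Inst.finish]
    rw [release_last, handling_last]
    have h3 := travel_right x (a := v) (b := 2 * x.1.length + 1) (by omega)
    have h4 : pos x.1 (2 * x.1.length + 1) = XX x.1 := sum_lenF x.1
    have h5 : 1 + pos x.1 v + x.1.length * HH x + 4 * selSum x.1 S x.1.length +
        (red x).travel v (2 * x.1.length + 1) = rstar x := by
      unfold rstar
      omega
    rw [h5, max_self]
    have h6 := ret_inv x S x.1.length le_rfl (rstar x + 1) (2 * x.1.length + 1) (by omega)
      (by unfold rstar; omega)
    rw [hS, sum_getD, h4] at h6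
    unfold KK
    have h7 : rstar x = XX x.1 + 1 + x.1.length * HH x + 4 * x.2 := rfl
    omega

/-- correctness of the reduction -/
theorem correct {x : List ℕ × ℕ} (hp : ∀ a ∈ x.1, 0 < a) :
    SubsetSum x ↔ LineVehicle (red x) := ⟨forward hp, backward hp⟩

end Pool.Agent.H462R3.VS
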