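import Pool.Agent.H462R3.VS.Fwd
import Pool.Agent.NPC.Dec

/-!
# Membership in NP
-/

namespace Pool.Agent.NPC.H462VS

open Pool.Agent.H462R3.VS

set_option maxHeartbeats 400000

theorem sum_Ico_list (l : List (ℕ × ℕ)) (f : ℕ × ℕ → ℕ) (hf : f (0, 0) = 0) (a b : ℕ) :
    ∑ e ∈ Finset.Ico a b, f (l.getD e (0, 0)) =
      ((List.range l.length).map fun e => if a ≤ e ∧ e < b then f (l.getD e (0, 0)) else 0).sum := by
  have h1 : ((List.range l.length).map fun e => if a ≤ e ∧ e < b then f (l.getD e (0, 0))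
      else 0).sum = ∑ e ∈ Finset.range l.length, if a ≤ e ∧ e < b then f (l.getD e (0, 0))
      else 0 := by
    rw [← List.sum_toFinset _ List.nodup_range]
    refine Finset.sum_congr ?_ fun _ _ => rfl
    ext e
    simp
  rw [h1, ← Finset.sum_filter]
  refine (Finset.sum_subset ?_ ?_).symm
  · intro e he
    rw [Finset.mem_filter] at he
    exact Finset.mem_Ico.2 he.2
  · intro e he he2
    rw [Finset.mem_Ico] at he
    rw [Finset.mem_filter, Finset.mem_range] at he2
    have : l.length ≤ e := by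
      by_contra hcon
      exact he2 ⟨by omega, he⟩
    rw [List.getD_eq_default _ _ this, hf]

theorem travel_eq (I : Inst) (v w : ℕ) : I.travel v w =
    ((List.range I.1.length).map fun e => if v ≤ e ∧ e < w then (I.1.getD e (0, 0)).1 else 0).sum +
    ((List.range I.1.length).map fun e => if w ≤ e ∧ e < v then (I.1.getD e (0, 0)).2 else 0).sum := by
  unfold Inst.travel Inst.right Inst.left
  rw [sum_Ico_list I.1 Prod.fst rfl, sum_Ico_list I.1 Prod.snd rfl]

theorem poly_travel_half {α : Type} [TEnc α] {l : α → List (ℕ × ℕ)} {v w : α → ℕ}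
    {f : ℕ × ℕ → ℕ} (hl : Poly l) (hv : Poly v) (hw : Poly w) (hf : Poly f) :
    Poly (fun a => ((List.range (l a).length).map fun e =>
      if v a ≤ e ∧ e < w a then f ((l a).getD e (0, 0)) else 0).sum) := by
  refine Poly.sum (Poly.map (F := fun a e =>
    if v a ≤ e ∧ e < w a then f ((l a).getD e (0, 0)) else 0) (UPoly.length hl).range ?_)
  have h1 : Poly (fun p : α × ℕ => p.2) := Poly.snd Poly.id
  have h2 : Poly (fun p : α × ℕ => v p.1) := hv.comp (Poly.fst Poly.id)
  have h3 : Poly (fun p : α × ℕ => w p.1) := hw.comp (Poly.fst Poly.id)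
  have h4 : Poly (fun p : α × ℕ => l p.1) := hl.comp (Poly.fst Poly.id)
  exact Poly.ite (Poly.decide_and (Poly.decide_le h2 h1) (Poly.decide_lt h1 h3))
    (hf.comp (Poly.getD h4 h1 (Poly.const (0, 0)))) (Poly.const 0)

theorem poly_travel : Poly (fun p : Inst × ℕ × ℕ => p.1.travel p.2.1 p.2.2) := by
  have hl : Poly (fun p : Inst × ℕ × ℕ => p.1.1) := Poly.fst (Poly.fst Poly.id)
  have hv : Poly (fun p : Inst × ℕ × ℕ => p.2.1) := Poly.fst (Poly.snd Poly.id)
  have hw : Poly (fun p : Inst × ℕ × ℕ => p.2.2) := Poly.snd (Poly.snd Poly.id)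
  exact (Poly.add (poly_travel_half (f := Prod.fst) hl hv hw (Poly.fst Poly.id))
    (poly_travel_half (f := Prod.snd) hl hw hv (Poly.snd Poly.id))).congr
    fun p => (travel_eq p.1 p.2.1 p.2.2).symm

/-- one step of a schedule -/
def step (I : Inst) (s : ℕ × ℕ) (j : ℕ) : ℕ × ℕ :=
  (max (s.1 + I.travel s.2 j) (I.release j) + I.handling j, j)

theorem finish_eq (I : Inst) : ∀ (π : List ℕ) (t v : ℕ), I.finish t v π =
    (π.foldl (step I) (t, v)).1 + I.travel (π.foldl (step I) (t, v)).2 I.start
  | [], t, v => rfl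
  | j :: π, t, v => by
    simp only [Inst.finish, List.foldl_cons]
    rw [finish_eq I π]
    rfl

theorem poly_release {α : Type} [TEnc α] {I : α → Inst} {v : α → ℕ} (hI : Poly I) (hv : Poly v) :
    Poly (fun a => (I a).release (v a)) :=
  Poly.fst (Poly.getD (Poly.fst (Poly.snd hI)) hv (Poly.const (0, 0)))

theorem poly_handling {α : Type} [TEnc α] {I : α → Inst} {v : α → ℕ} (hI : Poly I) (hv : Poly v) :
    Poly (fun a => (I a).handling (v a)) :=
  Poly.snd (Poly.getD (Poly.fst (Poly.snd hI)) hv (Poly.const (0, 0)))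

theorem poly_step : Poly (fun p : (Inst × List ℕ) × (ℕ × ℕ) × ℕ => step p.1.1 p.2.1 p.2.2) := by
  have hI : Poly (fun p : (Inst × List ℕ) × (ℕ × ℕ) × ℕ => p.1.1) := Poly.fst (Poly.fst Poly.id)
  have hj : Poly (fun p : (Inst × List ℕ) × (ℕ × ℕ) × ℕ => p.2.2) := Poly.snd (Poly.snd Poly.id)
  have ht : Poly (fun p : (Inst × List ℕ) × (ℕ × ℕ) × ℕ => p.2.1.1) :=
    Poly.fst (Poly.fst (Poly.snd Poly.id))
  have hv : Poly (fun p : (Inst × List ℕ) × (ℕ × ℕ) × ℕ => p.2.1.2) :=
    Poly.snd (Poly.fst (Poly.snd Poly.id))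
  have h0 := poly_travel.comp (Poly.pair hI (Poly.pair hv hj))
  have h1 : Poly (fun p : (Inst × List ℕ) × (ℕ × ℕ) × ℕ => p.1.1.travel p.2.1.2 p.2.2) := h0
  have h2 : Poly (fun p : (Inst × List ℕ) × (ℕ × ℕ) × ℕ => p.1.1.release p.2.2) :=
    poly_release hI hj
  have h3 : Poly (fun p : (Inst × List ℕ) × (ℕ × ℕ) × ℕ => p.1.1.handling p.2.2) :=
    poly_handling hI hj
  have h4 : Poly (fun p : (Inst × List ℕ) × (ℕ × ℕ) × ℕ =>
      max (p.2.1.1 + p.1.1.travel p.2.1.2 p.2.2) (p.1.1.release p.2.2)) :=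
    Poly.max (Poly.add ht h1) h2
  have h5 : Poly (fun p : (Inst × List ℕ) × (ℕ × ℕ) × ℕ =>
      ((max (p.2.1.1 + p.1.1.travel p.2.1.2 p.2.2) (p.1.1.release p.2.2) +
        p.1.1.handling p.2.2, p.2.2) : ℕ × ℕ)) :=
    Poly.pair (Poly.add h4 h3) hj
  exact h5

/-- a bound for all numbers of the instance -/
def wt (I : Inst) : ℕ := (I.1.map Prod.fst).sum + (I.1.map Prod.snd).sum +
  ((I.2.1.map Prod.fst).sum + (I.2.1.map Prod.snd).sum)

theorem poly_wt : Poly wt := by
  unfold wt
  have h1 : Poly (fun I : Inst => I.1) := Poly.fst Poly.id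
  have h2 : Poly (fun I : Inst => I.2.1) := Poly.fst (Poly.snd Poly.id)
  have hf : ∀ {g : Inst → List (ℕ × ℕ)}, Poly g → Poly (fun I => ((g I).map Prod.fst).sum) :=
    fun hg => Poly.sum (Poly.map (F := fun _ p => Prod.fst p) hg
      (Poly.fst (Poly.snd Poly.id)))
  have hs : ∀ {g : Inst → List (ℕ × ℕ)}, Poly g → Poly (fun I => ((g I).map Prod.snd).sum) :=
    fun hg => Poly.sum (Poly.map (F := fun _ p => Prod.snd p) hg
      (Poly.snd (Poly.snd Poly.id)))
  exact Poly.add (Poly.add (hf h1) (hs h1)) (Poly.add (hf h2) (hs h2))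

theorem getD_le_sum (l : List (ℕ × ℕ)) (f : ℕ × ℕ → ℕ) (hf : f (0, 0) = 0) (e : ℕ) :
    f (l.getD e (0, 0)) ≤ (l.map f).sum := by
  rcases Nat.lt_or_ge e l.length with h | h
  · rw [List.getD_eq_getElem _ _ h]
    exact List.single_le_sum (by simp) _ (List.mem_map_of_mem (List.getElem_mem h))
  · rw [List.getD_eq_default _ _ h, hf]
    exact Nat.zero_le _

theorem sum_range_getD (l : List (ℕ × ℕ)) (f : ℕ × ℕ → ℕ) (P : ℕ → Prop) [DecidablePred P] :
    ((List.range l.length).map fun e => if P e then f (l.getD e (0, 0)) else 0).sum ≤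
      (l.map f).sum := by
  have h : l.map f = (List.range l.length).map fun e => f (l.getD e (0, 0)) := by
    apply List.ext_getElem
    · simp
    · intro i h1 h2
      simp only [List.getElem_map, List.getElem_range]
      rw [List.getD_eq_getElem _ _ (by simpa using h1)]
  rw [h]
  refine List.sum_le_sum fun e _ => ?_
  split_ifs
  · exact le_rfl
  · exact Nat.zero_le _

theorem travel_le (I : Inst) (v w : ℕ) :
    I.travel v w ≤ (I.1.map Prod.fst).sum + (I.1.map Prod.snd).sum := by
  rw [travel_eq]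
  exact Nat.add_le_add (sum_range_getD I.1 Prod.fst _) (sum_range_getD I.1 Prod.snd _)

theorem step_fst_le (I : Inst) (s : ℕ × ℕ) (j : ℕ) : (step I s j).1 ≤ s.1 + wt I := by
  have h1 := travel_le I s.2 j
  have h2 := getD_le_sum I.2.1 Prod.fst rfl j
  have h3 := getD_le_sum I.2.1 Prod.snd rfl j
  have h4 : max (s.1 + I.travel s.2 j) (I.release j) ≤
      s.1 + I.travel s.2 j + I.release j := max_le (by omega) (by omega)
  have h5 : I.release j ≤ (I.2.1.map Prod.fst).sum := h2
  have h6 : I.handling j ≤ (I.2.1.map Prod.snd).sum := h3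
  unfold step wt
  simp only
  omega

theorem foldl_fst_le (I : Inst) : ∀ (π : List ℕ) (s : ℕ × ℕ),
    (π.foldl (step I) s).1 ≤ s.1 + π.length * wt I
  | [], s => by simp
  | j :: π, s => by
    rw [List.foldl_cons]
    have h1 := foldl_fst_le I π (step I s j)
    have h2 := step_fst_le I s j
    rw [List.length_cons, add_mul, one_mul]
    omega

theorem foldl_snd_mem (I : Inst) : ∀ (π : List ℕ) (s : ℕ × ℕ),
    (π.foldl (step I) s).2 ∈ s.2 :: π
  | [], s => by simp
  | j :: π, s => by
    rw [List.foldl_cons]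
    have h1 := foldl_snd_mem I π (step I s j)
    exact List.mem_cons_of_mem _ h1

theorem poly_completion : Poly (fun p : Inst × List ℕ => p.1.completion p.2) := by
  have hw := poly_wt.comp (Poly.fst (Poly.id (α := Inst × List ℕ)))
  have hb : Poly (fun p : Inst × List ℕ => p.2.length * wt p.1) :=
    Poly.mul (Poly.length (Poly.snd Poly.id)) hw
  obtain ⟨r, hr⟩ := hb.sz_le
  have hs : Poly (fun p : Inst × List ℕ => p.1.start) :=
    Poly.fst (Poly.snd (Poly.snd (Poly.fst Poly.id)))
  have hcons : Poly (fun p : Inst × List ℕ => p.1.start :: p.2) :=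
    Poly.cons hs (Poly.snd Poly.id)
  obtain ⟨r', hr'⟩ := hcons.sz_le
  have hfold : Poly (fun p : Inst × List ℕ => p.2.foldl (step p.1) (0, p.1.start)) := by
    refine Poly.foldl (α := Inst × List ℕ) (F := fun p s j => step p.1 s j)
      (l := fun p => p.2) (s := fun p => ((0, p.1.start) : ℕ × ℕ)) (Poly.snd Poly.id)
      (Poly.pair (Poly.const 0) hs) poly_step (Polynomial.C 2 * r + r' + Polynomial.C 1) ?_
    intro p k hk
    set s := (p.2.take k).foldl (step p.1) (0, p.1.start) with hsd
    have h1 : s.1 ≤ p.2.length * wt p.1 := by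
      have h2 := foldl_fst_le p.1 (p.2.take k) (0, p.1.start)
      rw [← hsd] at h2
      refine h2.trans ?_
      simp only [zero_add]
      refine Nat.mul_le_mul_right _ ?_
      rw [List.length_take]
      exact Nat.min_le_right _ _
    have h3 : s.2 ∈ p.1.start :: p.2 := by
      have h2 := foldl_snd_mem p.1 (p.2.take k) (0, p.1.start)
      rw [← hsd] at h2
      rcases List.mem_cons.1 h2 with h2 | h2
      · rw [h2]; exact List.mem_cons_self
      · exact List.mem_cons_of_mem _ (List.mem_of_mem_take h2)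
    have h4 : sz s.1 ≤ 2 * sz (p.2.length * wt p.1) := sz_nat_mono_le h1
    have h5 : sz s.2 < sz (p.1.start :: p.2) := sz_le_of_mem h3
    have h6 := hr p
    have h7 := hr' p
    have h8 : sz s = sz s.1 + sz s.2 + 1 := sz_pair s.1 s.2
    simp only [Polynomial.eval_add, Polynomial.eval_mul, Polynomial.eval_C]
    omega
  have hI : Poly (fun p : Inst × List ℕ => p.1) := Poly.fst Poly.id
  have h0 := poly_travel.comp (Poly.pair hI (Poly.pair (Poly.snd hfold) hs))
  have h1 : Poly (fun p : Inst × List ℕ => (p.2.foldl (step p.1) (0, p.1.start)).1 +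
      p.1.travel (p.2.foldl (step p.1) (0, p.1.start)).2 p.1.start) :=
    Poly.add (Poly.fst hfold) h0
  exact h1.congr fun p => (finish_eq p.1 p.2 0 p.1.start).symm

/-- the verifier -/
def verify (p : Inst × List ℕ) : Bool :=
  decide (p.1.2.1.length = p.1.1.length + 1) && (decide (p.1.start < p.1.2.1.length) &&
    (p.1.2.1.all (fun j => decide (0 < j.2)) && (decide (p.2.length = p.1.2.1.length) &&
      ((List.range p.1.2.1.length).all (fun v => decide (v ∈ p.2)) &&
        decide (p.1.completion p.2 ≤ p.1.bound)))))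

theorem poly_verify : Poly verify := by
  have hc := poly_completion
  have hs : Poly (fun p : Inst × List ℕ => p.1.start) :=
    Poly.fst (Poly.snd (Poly.snd (Poly.fst Poly.id)))
  have hb : Poly (fun p : Inst × List ℕ => p.1.bound) :=
    Poly.snd (Poly.snd (Poly.snd (Poly.fst Poly.id)))
  have hj : Poly (fun p : Inst × List ℕ => p.1.2.1) := Poly.fst (Poly.snd (Poly.fst Poly.id))
  have he : Poly (fun p : Inst × List ℕ => p.1.1) := Poly.fst (Poly.fst Poly.id)
  have hp : Poly (fun p : Inst × List ℕ => p.2) := Poly.snd Poly.id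
  have hn : Poly (fun p : Inst × List ℕ => p.1.2.1.length) := Poly.length hj
  have h5 : Poly (fun p : Inst × List ℕ =>
      (List.range p.1.2.1.length).all (fun v => decide (v ∈ p.2))) :=
    Poly.all (p := fun (p : Inst × List ℕ) v => decide (v ∈ p.2)) (UPoly.length hj).range
      (Poly.decide_mem (Poly.snd Poly.id) (Poly.snd (Poly.fst Poly.id)))
  have h6 : Poly (fun p : Inst × List ℕ => p.1.2.1.all (fun j => decide (0 < j.2))) :=
    Poly.all (p := fun (_ : Inst × List ℕ) (j : ℕ × ℕ) => decide (0 < j.2)) hj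
      (Poly.decide_lt (Poly.const 0) (Poly.snd (Poly.snd Poly.id)))
  exact Poly.and (Poly.decide_eq hn (Poly.add (Poly.length he) (Poly.const 1)))
    (Poly.and (Poly.decide_lt hs hn) (Poly.and h6 (Poly.and (Poly.decide_eq (Poly.length hp) hn)
      (Poly.and h5 (Poly.decide_le hc hb)))))

theorem perm_range_iff {π : List ℕ} {n : ℕ} :
    π.Perm (List.range n) ↔ π.length = n ∧ ∀ v < n, v ∈ π := by
  constructor
  · intro h
    refine ⟨by rw [h.length_eq, List.length_range], fun v hv => ?_⟩
    exact h.mem_iff.2 (List.mem_range.2 hv)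
  · rintro ⟨h1, h2⟩
    have h3 : (List.range n).Subperm π :=
      List.subperm_of_subset List.nodup_range (fun v hv => h2 v (List.mem_range.1 hv))
    exact (h3.perm_of_length_le (by rw [h1, List.length_range])).symm

theorem verify_iff (I : Inst) (π : List ℕ) : verify (I, π) = true ↔
    I.Valid ∧ π.Perm (List.range I.numV) ∧ I.completion π ≤ I.bound := by
  have hval : (∀ v < I.numV, 0 < I.handling v) ↔ ∀ j ∈ I.2.1, 0 < j.2 := by
    unfold Inst.numV Inst.handling
    constructor
    · intro h j hj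
      obtain ⟨v, hv, rfl⟩ := List.getElem_of_mem hj
      have := h v hv
      rwa [List.getD_eq_getElem _ _ hv] at this
    · intro h v hv
      rw [List.getD_eq_getElem _ _ hv]
      exact h _ (List.getElem_mem hv)
  unfold verify Inst.Valid
  rw [hval, perm_range_iff]
  simp only [Bool.and_eq_true, decide_eq_true_eq, List.all_eq_true, List.mem_range, Inst.numV]
  tauto

theorem inNPP_lineVehicle : InNPP LineVehicle := by
  have hr : Poly (fun I : Inst => List.range I.2.1.length) :=
    (UPoly.length (Poly.fst (Poly.snd Poly.id))).range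
  obtain ⟨q, hq⟩ := hr.sz_le
  refine inNPP_of poly_verify (Polynomial.C 1 * q + Polynomial.C 0) fun I => ?_
  constructor
  · rintro ⟨h1, π, h2, h3⟩
    refine ⟨π, ?_, (verify_iff I π).2 ⟨h1, h2, h3⟩⟩
    have h4 : sz π = sz (List.range I.numV) := by
      have key : ∀ {l l' : List ℕ}, l.Perm l' → sz l = sz l' := by
        intro l l' h
        induction h with
        | nil => rfl
        | cons x _ ih => simp only [sz_list_cons]; omega
        | swap x y l => simp only [sz_list_cons]; omega
        | trans _ _ ih1 ih2 => exact ih1.trans ih2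
      exact key h2
    rw [h4]
    have h5 := hq I
    simp only [Polynomial.eval_add, Polynomial.eval_mul, Polynomial.eval_C]
    have h6 : sz (List.range I.numV) = sz (List.range I.2.1.length) := rfl
    omega
  · rintro ⟨π, _, h⟩
    obtain ⟨h1, h2, h3⟩ := (verify_iff I π).1 h
    exact ⟨h1, π, h2, h3⟩

end Pool.Agent.NPC.H462VS
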