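import Pool.Agent.H462R3.VS.Core
import Pool.Agent.H671R2.SubsetSum

/-!
# The reduction from subset sum to scheduling on a line

The line is `depot, s₀, b₀, s₁, b₁, …, c`.  The distance of `sᵢ` and `bᵢ` is the `i`-th item `aᵢ`,
all other distances of neighbours are `1`.  The job `bᵢ` is released at time `0` and takes time
`H`; the job `sᵢ` is released at time `(i + 1) H` and takes time `2 aᵢ`; the job `c` is released
late.  A good schedule moves to the right, processing all jobs `bᵢ`, and makes a detour of length
`2 aᵢ` to process `sᵢ` directly after `bᵢ` for some of the indices `i`; the other jobs `sᵢ` are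
processed on the way back.
-/

namespace Pool.Agent.H462R3.VS

open Pool.Agent.NPC Pool.Agent.NPC.R671.SS

/-- the length of the line -/
def XX (l : List ℕ) : ℕ := l.length + 1 + l.sum

/-- the handling time of the long jobs -/
def HH (x : List ℕ × ℕ) : ℕ := 2 + 2 * x.1.sum + 2 * x.2 + XX x.1

/-- the release time of the last vertex -/
def rstar (x : List ℕ × ℕ) : ℕ := XX x.1 + 1 + x.1.length * HH x + 4 * x.2

/-- the bound -/
def KK (x : List ℕ × ℕ) : ℕ := 2 * XX x.1 + 2 + 2 * x.1.sum + x.1.length * HH x + 2 * x.2

/-- edge lengths -/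
def elen (l : List ℕ) (e : ℕ) : ℕ := if e % 2 = 0 then 1 else l.getD (e / 2) 0

/-- the edges -/
def edgesOf (l : List ℕ) : List (ℕ × ℕ) :=
  (List.range (2 * l.length + 1)).map fun e => (elen l e, elen l e)

/-- the job at a vertex -/
def jobOf (x : List ℕ × ℕ) (v : ℕ) : ℕ × ℕ :=
  if v = 0 then (0, 1) else if v = 2 * x.1.length + 1 then (rstar x, 1)
  else if v % 2 = 1 then ((v / 2 + 1) * HH x, 2 * x.1.getD (v / 2) 0) else (0, HH x)

/-- the instance -/
def red (x : List ℕ × ℕ) : Inst :=
  (edgesOf x.1, (List.range (2 * x.1.length + 2)).map (jobOf x), 0, KK x)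

theorem getD_map_range {α : Type} (f : ℕ → α) (M e : ℕ) (d : α) :
    ((List.range M).map f).getD e d = if e < M then f e else d := by
  rw [List.getD_eq_getElem?_getD, List.getElem?_map]
  split_ifs with h
  · rw [List.getElem?_range h]; rfl
  · rw [List.getElem?_eq_none (by simpa using h)]; rfl

/-- edge lengths, zero outside the line -/
def lenF (l : List ℕ) (e : ℕ) : ℕ := if e < 2 * l.length + 1 then elen l e else 0

theorem sym_red (x : List ℕ × ℕ) : Sym (red x) (lenF x.1) (2 * x.1.length + 1) := by
  constructor
  · intro e
    simp only [Inst.right, red, edgesOf, getD_map_range, lenF]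
    split_ifs <;> rfl
  · intro e
    simp only [Inst.left, red, edgesOf, getD_map_range, lenF]
    split_ifs <;> rfl

theorem numV_red (x : List ℕ × ℕ) : (red x).numV = 2 * x.1.length + 2 := by
  simp [Inst.numV, red]

theorem release_small (x : List ℕ × ℕ) {i : ℕ} (hi : i < x.1.length) :
    (red x).release (2 * i + 1) = (i + 1) * HH x := by
  simp only [Inst.release, red, getD_map_range, jobOf]
  rw [if_pos (by omega), if_neg (by omega), if_neg (by omega), if_pos (by omega)]
  have : (2 * i + 1) / 2 = i := by omega
  rw [this]

theorem handling_small (x : List ℕ × ℕ) {i : ℕ} (hi : i < x.1.length) :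
    (red x).handling (2 * i + 1) = 2 * x.1.getD i 0 := by
  simp only [Inst.handling, red, getD_map_range, jobOf]
  rw [if_pos (by omega), if_neg (by omega), if_neg (by omega), if_pos (by omega)]
  have : (2 * i + 1) / 2 = i := by omega
  rw [this]

theorem release_big (x : List ℕ × ℕ) {i : ℕ} (hi : i < x.1.length) :
    (red x).release (2 * i + 2) = 0 := by
  simp only [Inst.release, red, getD_map_range, jobOf]
  rw [if_pos (by omega), if_neg (by omega), if_neg (by omega), if_neg (by omega)]

theorem handling_big (x : List ℕ × ℕ) {i : ℕ} (hi : i < x.1.length) :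
    (red x).handling (2 * i + 2) = HH x := by
  simp only [Inst.handling, red, getD_map_range, jobOf]
  rw [if_pos (by omega), if_neg (by omega), if_neg (by omega), if_neg (by omega)]

theorem release_last (x : List ℕ × ℕ) : (red x).release (2 * x.1.length + 1) = rstar x := by
  simp only [Inst.release, red, getD_map_range, jobOf]
  rw [if_pos (by omega), if_neg (by omega), if_pos trivial]

theorem handling_last (x : List ℕ × ℕ) : (red x).handling (2 * x.1.length + 1) = 1 := by
  simp only [Inst.handling, red, getD_map_range, jobOf]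
  rw [if_pos (by omega), if_neg (by omega), if_pos trivial]

theorem release_zero (x : List ℕ × ℕ) : (red x).release 0 = 0 := by
  simp only [Inst.release, red, getD_map_range, jobOf]
  rw [if_pos (by omega), if_pos trivial]

theorem handling_zero (x : List ℕ × ℕ) : (red x).handling 0 = 1 := by
  simp only [Inst.handling, red, getD_map_range, jobOf]
  rw [if_pos (by omega), if_pos trivial]

/-- splitting a sum into even and odd indices -/
theorem sum_odd_even (f : ℕ → ℕ) (n : ℕ) : ∑ e ∈ Finset.range (2 * n + 1), f e =
    f 0 + ∑ i ∈ Finset.range n, (f (2 * i + 1) + f (2 * i + 2)) := by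
  induction n with
  | zero => simp
  | succ n ih =>
    have : 2 * (n + 1) + 1 = 2 * n + 1 + 1 + 1 := by ring
    rw [this, Finset.sum_range_succ, Finset.sum_range_succ, ih, Finset.sum_range_succ]
    ring

theorem sum_getD (l : List ℕ) : ∑ i ∈ Finset.range l.length, l.getD i 0 = l.sum := by
  induction l with
  | nil => simp
  | cons a l ih =>
    rw [List.length_cons, Finset.sum_range_succ', List.sum_cons, ← ih]
    simp [add_comm]

theorem lenF_odd (l : List ℕ) {i : ℕ} (hi : i < l.length) : lenF l (2 * i + 1) = l.getD i 0 := by
  unfold lenF elen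
  rw [if_pos (by omega), if_neg (by omega)]
  congr 1
  omega

theorem lenF_even (l : List ℕ) {i : ℕ} (hi : i ≤ l.length) : lenF l (2 * i) = 1 := by
  unfold lenF elen
  rw [if_pos (by omega), if_pos (by omega)]

theorem sum_lenF (l : List ℕ) : ∑ e ∈ Finset.range (2 * l.length + 1), lenF l e = XX l := by
  rw [sum_odd_even]
  have h0 : lenF l 0 = 1 := lenF_even l (Nat.zero_le _)
  rw [h0]
  have : ∑ i ∈ Finset.range l.length, (lenF l (2 * i + 1) + lenF l (2 * i + 2)) =
      ∑ i ∈ Finset.range l.length, (l.getD i 0 + 1) := by
    refine Finset.sum_congr rfl fun i hi => ?_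
    rw [Finset.mem_range] at hi
    rw [lenF_odd l hi]
    have := lenF_even l (i := i + 1) (by omega)
    rw [show 2 * i + 2 = 2 * (i + 1) by ring, this]
  rw [this, Finset.sum_add_distrib, sum_getD]
  unfold XX
  simp
  ring

theorem sum_handling (x : List ℕ × ℕ) : ∑ v ∈ Finset.range (2 * x.1.length + 2), (red x).handling v =
    2 + 2 * x.1.sum + x.1.length * HH x := by
  rw [Finset.sum_range_succ, sum_odd_even, handling_zero, handling_last]
  have : ∑ i ∈ Finset.range x.1.length, ((red x).handling (2 * i + 1) +
      (red x).handling (2 * i + 2)) = ∑ i ∈ Finset.range x.1.length, (2 * x.1.getD i 0 + HH x) := by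
    refine Finset.sum_congr rfl fun i hi => ?_
    rw [Finset.mem_range] at hi
    rw [handling_small x hi, handling_big x hi]
  rw [this, Finset.sum_add_distrib, ← Finset.mul_sum, sum_getD]
  simp
  ring

theorem travel_last (x : List ℕ × ℕ) : (red x).travel (2 * x.1.length + 1) 0 = XX x.1 := by
  rw [(sym_red x).travel le_rfl (Nat.zero_le _), ← sum_lenF]
  refine Finset.sum_congr rfl fun e he => ?_
  rw [Finset.mem_range] at he
  unfold sep
  rw [if_pos (by omega), one_mul]

section Backward

variable {x : List ℕ × ℕ} {π π₁ π₂ : List ℕ}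

theorem sum_map_ge (h : ℕ → ℕ) {l : List ℕ} (hl : l.Nodup) (F : Finset ℕ)
    (hF : ∀ v ∈ F, v ∈ l) : ∑ v ∈ F, h v ≤ (l.map h).sum := by
  rw [← List.sum_toFinset _ hl]
  exact Finset.sum_le_sum_of_subset fun v hv => List.mem_toFinset.2 (hF v hv)

/-- before an early small job the vehicle has been to its right -/
theorem exists_right (hn : π.Nodup) (hm : ∀ v, v ∈ π ↔ v < 2 * x.1.length + 2)
    (hK : (red x).completion π ≤ KK x) (hπ : π = π₁ ++ (2 * x.1.length + 1) :: π₂) {i : ℕ}
    (hi : i < x.1.length) {π₁' π₁'' : List ℕ} (h1 : π₁ = π₁' ++ (2 * i + 1) :: π₁'') :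
    ∃ j ∈ π₁', 2 * i + 1 < j := by
  by_contra hcon
  push Not at hcon
  have hπ' : π = π₁' ++ (2 * i + 1) :: (π₁'' ++ (2 * x.1.length + 1) :: π₂) := by
    rw [hπ, h1]; simp
  have hmem : ∀ v, 2 * i + 1 < v → v < 2 * x.1.length + 2 →
      v ∈ π₁'' ++ (2 * x.1.length + 1) :: π₂ := by
    intro v hv hv2
    have h2 := (hm v).2 hv2
    rw [hπ', List.mem_append, List.mem_cons] at h2
    rcases h2 with h2 | h2 | h2
    · have := hcon v h2; omega
    · omega
    · exact h2
  have hn' : (π₁'' ++ (2 * x.1.length + 1) :: π₂).Nodup := by
    rw [hπ'] at hn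
    exact (List.nodup_cons.1 (List.nodup_append.1 hn).2.1).2
  have h3 := finish_ge_release (red x) (2 * i + 1) (π₁'' ++ (2 * x.1.length + 1) :: π₂) π₁' 0
    (red x).start
  rw [← hπ'] at h3
  have h4 : (red x).finish 0 (red x).start π ≤ KK x := hK
  have h5 : plen (red x).travel ((2 * i + 1) :: [2 * x.1.length + 1, 0]) ≤
      plen (red x).travel ((2 * i + 1) :: ((π₁'' ++ (2 * x.1.length + 1) :: π₂) ++
        [(red x).start])) := by
    refine (sym_red x).plen_mono ?_ ?_
    · have e1 : [2 * x.1.length + 1].Sublist (π₁'' ++ (2 * x.1.length + 1) :: π₂) :=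
        List.singleton_sublist.2 (by simp)
      exact e1.append (List.Sublist.refl [0])
    · intro v hv
      rcases List.mem_cons.1 hv with rfl | hv
      · omega
      · rcases List.mem_append.1 hv with hv | hv
        · have : v ∈ π := by
            rw [hπ']
            exact List.mem_append_right _ (List.mem_cons_of_mem _ hv)
          have := (hm v).1 this
          omega
        · rw [List.mem_singleton] at hv
          rw [hv]
          exact Nat.zero_le _
  have h6 : plen (red x).travel ((2 * i + 1) :: [2 * x.1.length + 1, 0]) =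
      (red x).travel (2 * i + 1) (2 * x.1.length + 1) + XX x.1 := by
    simp only [plen, travel_last]
    omega
  have h7 : 1 + (x.1.length - i) * HH x ≤
      ((π₁'' ++ (2 * x.1.length + 1) :: π₂).map (red x).handling).sum := by
    refine le_trans ?_ (sum_map_ge (red x).handling hn'
      (insert (2 * x.1.length + 1) ((Finset.Ico i x.1.length).image fun k => 2 * k + 2)) ?_)
    · rw [Finset.sum_insert, Finset.sum_image, handling_last]
      · have : ∑ k ∈ Finset.Ico i x.1.length, (red x).handling (2 * k + 2) =
            ∑ k ∈ Finset.Ico i x.1.length, HH x := by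
          refine Finset.sum_congr rfl fun k hk => ?_
          rw [Finset.mem_Ico] at hk
          exact handling_big x hk.2
        rw [this]
        simp
      · intro a _ b _ hab
        simp only at hab
        omega
      · intro hcon2
        rw [Finset.mem_image] at hcon2
        obtain ⟨k, _, hk⟩ := hcon2
        omega
    · intro v hv
      rw [Finset.mem_insert, Finset.mem_image] at hv
      rcases hv with rfl | ⟨k, hk, rfl⟩
      · exact hmem _ (by omega) (by omega)
      · rw [Finset.mem_Ico] at hk
        exact hmem _ (by omega) (by omega)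
  rw [release_small x hi] at h3
  have h8 : (i + 1) * HH x + (x.1.length - i) * HH x = x.1.length * HH x + HH x := by
    rw [← add_mul]
    have : i + 1 + (x.1.length - i) = x.1.length + 1 := by omega
    rw [this]; ring
  have h9 : HH x = 2 + 2 * x.1.sum + 2 * x.2 + XX x.1 := rfl
  unfold KK at h4
  omega

theorem backward_aux (hp : ∀ a ∈ x.1, 0 < a) (hn : π.Nodup)
    (hm : ∀ v, v ∈ π ↔ v < 2 * x.1.length + 2)
    (hK : (red x).completion π ≤ KK x) (hπ : π = π₁ ++ (2 * x.1.length + 1) :: π₂) :
    ∑ i ∈ (Finset.range x.1.length).filter (fun i => 2 * i + 1 ∈ π₁), x.1.getD i 0 = x.2 := by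
  classical
  set S := (Finset.range x.1.length).filter (fun i => 2 * i + 1 ∈ π₁) with hS
  have hsplit : ∑ i ∈ S, x.1.getD i 0 +
      ∑ i ∈ (Finset.range x.1.length).filter (fun i => ¬ (2 * i + 1 ∈ π₁)), x.1.getD i 0 = x.1.sum := by
    rw [hS, Finset.sum_filter_add_sum_filter_not, sum_getD]
  have h4 : (red x).finish 0 (red x).start π ≤ KK x := hK
  -- first inequality
  have hlow : x.2 ≤ ∑ i ∈ S, x.1.getD i 0 := by
    have h3 := finish_ge_release (red x) (2 * x.1.length + 1) π₂ π₁ 0 (red x).start
    rw [← hπ] at h3
    have h5 : plen (red x).travel ((2 * x.1.length + 1) :: [0]) ≤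
        plen (red x).travel ((2 * x.1.length + 1) :: (π₂ ++ [(red x).start])) := by
      refine (sym_red x).plen_mono ?_ ?_
      · exact List.sublist_append_right π₂ [0]
      · intro v hv
        rcases List.mem_cons.1 hv with rfl | hv
        · omega
        · rcases List.mem_append.1 hv with hv | hv
          · have : v ∈ π := by
              rw [hπ]
              exact List.mem_append_right _ (List.mem_cons_of_mem _ hv)
            have := (hm v).1 this
            omega
          · rw [List.mem_singleton] at hv
            rw [hv]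
            exact Nat.zero_le _
    have h6 : plen (red x).travel ((2 * x.1.length + 1) :: [0]) = XX x.1 := by
      simp only [plen]
      rw [travel_last, add_zero]
    have hn2 : π₂.Nodup := by
      rw [hπ] at hn
      exact (List.nodup_cons.1 (List.nodup_append.1 hn).2.1).2
    have h7 : ∑ i ∈ (Finset.range x.1.length).filter (fun i => ¬ (2 * i + 1 ∈ π₁)), 2 * x.1.getD i 0 ≤
        (π₂.map (red x).handling).sum := by
      refine le_trans (le_of_eq ?_) (sum_map_ge (red x).handling hn2
        (((Finset.range x.1.length).filter (fun i => ¬ (2 * i + 1 ∈ π₁))).image fun k => 2 * k + 1) ?_)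
      · rw [Finset.sum_image]
        · refine Finset.sum_congr rfl fun k hk => ?_
          rw [Finset.mem_filter, Finset.mem_range] at hk
          exact (handling_small x hk.1).symm
        · intro a _ b _ hab
          simp only at hab
          omega
      · intro v hv
        rw [Finset.mem_image] at hv
        obtain ⟨k, hk, rfl⟩ := hv
        rw [Finset.mem_filter, Finset.mem_range] at hk
        have h2 := (hm (2 * k + 1)).2 (by omega)
        rw [hπ, List.mem_append, List.mem_cons] at h2
        rcases h2 with h2 | h2 | h2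
        · exact absurd h2 hk.2
        · omega
        · exact h2
    rw [← Finset.mul_sum] at h7
    rw [release_last, handling_last] at h3
    unfold KK at h4
    unfold rstar at h3
    omega
  -- second inequality
  have hupp : ∑ i ∈ S, x.1.getD i 0 ≤ x.2 := by
    have h3 := finish_ge (red x) π 0 (red x).start
    have hmem : ∀ v ∈ (red x).start :: (π ++ [(red x).start]), v ≤ 2 * x.1.length + 1 := by
      intro v hv
      rcases List.mem_cons.1 hv with rfl | hv
      · exact Nat.zero_le _
      · rcases List.mem_append.1 hv with hv | hv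
        · have := (hm v).1 hv
          omega
        · rw [List.mem_singleton] at hv
          rw [hv]
          exact Nat.zero_le _
    rw [(sym_red x).plen_eq _ hmem] at h3
    have hc2 : ∀ e < 2 * x.1.length + 1, 2 ≤ cross e ((red x).start :: (π ++ [(red x).start])) := by
      intro e he
      have e1 : [2 * x.1.length + 1, 0].Sublist (π ++ [(red x).start]) := by
        have e2 : [2 * x.1.length + 1].Sublist π := List.singleton_sublist.2 (by rw [hπ]; simp)
        exact e2.append (List.Sublist.refl [0])
      refine le_trans ?_ (cross_sublist_cons (e := e) e1 (red x).start)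
      have hst : (red x).start = 0 := rfl
      rw [hst]
      simp only [cross, sep]
      rw [if_pos (by omega), if_pos (by omega)]
    have hc4 : ∀ i ∈ S, 4 ≤ cross (2 * i + 1) ((red x).start :: (π ++ [(red x).start])) := by
      intro i hi
      rw [hS, Finset.mem_filter, Finset.mem_range] at hi
      obtain ⟨hi1, hi2⟩ := hi
      obtain ⟨π₁', π₁'', h1⟩ := List.append_of_mem hi2
      obtain ⟨j, hj, hj2⟩ := exists_right hn hm hK hπ hi1 h1
      have e1 : ([j] ++ ([2 * i + 1] ++ ([2 * x.1.length + 1] ++ [0]))).Sublist
          (π₁' ++ (((2 * i + 1) :: π₁'') ++ (((2 * x.1.length + 1) :: π₂) ++ [(red x).start]))) := by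
        refine (List.singleton_sublist.2 hj).append ((List.singleton_sublist.2 (by simp)).append
          ((List.singleton_sublist.2 (by simp)).append (List.Sublist.refl [0])))
      have e2 : π ++ [(red x).start] =
          π₁' ++ (((2 * i + 1) :: π₁'') ++ (((2 * x.1.length + 1) :: π₂) ++ [(red x).start])) := by
        rw [hπ, h1]; simp
      rw [e2]
      refine le_trans ?_ (cross_sublist_cons (e := 2 * i + 1) e1 (red x).start)
      have hst : (red x).start = 0 := rfl
      rw [hst]
      simp only [List.cons_append, List.nil_append, cross, sep]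
      rw [if_pos (by omega), if_pos (by omega), if_pos (by omega), if_pos (by omega)]
    have h5 : 2 * XX x.1 + 2 * ∑ i ∈ S, x.1.getD i 0 ≤
        ∑ e ∈ Finset.range (2 * x.1.length + 1),
          cross e ((red x).start :: (π ++ [(red x).start])) * lenF x.1 e := by
      have h6 : ∀ e ∈ Finset.range (2 * x.1.length + 1),
          2 * lenF x.1 e + (if e % 2 = 1 ∧ e / 2 ∈ S then 2 * lenF x.1 e else 0) ≤
          cross e ((red x).start :: (π ++ [(red x).start])) * lenF x.1 e := by
        intro e he
        rw [Finset.mem_range] at he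
        split_ifs with hcond
        · have h8 := hc4 (e / 2) hcond.2
          have h9 : 2 * (e / 2) + 1 = e := by omega
          rw [h9] at h8
          calc 2 * lenF x.1 e + 2 * lenF x.1 e = 4 * lenF x.1 e := by ring
            _ ≤ _ := Nat.mul_le_mul_right _ h8
        · rw [add_zero]
          exact Nat.mul_le_mul_right _ (hc2 e he)
      refine le_trans (le_of_eq ?_) (Finset.sum_le_sum h6)
      rw [Finset.sum_add_distrib, ← Finset.mul_sum, sum_lenF]
      congr 1
      rw [sum_odd_even]
      rw [if_neg (by omega), zero_add]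
      have e0 : ∑ i ∈ S, x.1.getD i 0 =
          ∑ i ∈ Finset.range x.1.length, if i ∈ S then x.1.getD i 0 else 0 := by
        rw [← Finset.sum_filter]
        refine Finset.sum_congr ?_ fun _ _ => rfl
        ext i
        simp only [hS, Finset.mem_filter]
        tauto
      rw [e0, Finset.mul_sum]
      refine Finset.sum_congr rfl fun i hi => ?_
      rw [Finset.mem_range] at hi
      have e1 : (2 * i + 1) / 2 = i := by omega
      have e2 : ¬ ((2 * i + 2) % 2 = 1 ∧ (2 * i + 2) / 2 ∈ S) := by omega
      rw [e1, if_neg e2, add_zero]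
      by_cases h : i ∈ S
      · rw [if_pos h, if_pos ⟨by omega, h⟩, lenF_odd x.1 hi]
      · rw [if_neg h, if_neg (fun h2 => h h2.2), mul_zero]
    have h6 : (π.map (red x).handling).sum = 2 + 2 * x.1.sum + x.1.length * HH x := by
      rw [← sum_handling, ← List.sum_toFinset _ hn]
      congr 1
      ext v
      rw [List.mem_toFinset, hm, Finset.mem_range]
    rw [h6] at h3
    unfold KK at h4
    omega
  exact le_antisymm hupp hlow

/-- a set of indices gives a sublist -/
theorem exists_sublist (l : List ℕ) : ∀ S : Finset ℕ, ∃ s : List ℕ, s.Sublist l ∧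
    s.sum = ∑ i ∈ (Finset.range l.length).filter (· ∈ S), l.getD i 0 := by
  induction l with
  | nil => intro S; exact ⟨[], List.Sublist.refl _, by simp⟩
  | cons a l ih =>
    intro S
    obtain ⟨s, hs, hsum⟩ := ih ((Finset.range l.length).filter (fun i => i + 1 ∈ S))
    have e : (Finset.range l.length).filter (· ∈ (Finset.range l.length).filter
        (fun i => i + 1 ∈ S)) = (Finset.range l.length).filter (fun i => i + 1 ∈ S) := by
      ext i; simp
    rw [e] at hsum
    have key : ∑ i ∈ (Finset.range (a :: l).length).filter (· ∈ S), (a :: l).getD i 0 =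
        (if 0 ∈ S then a else 0) + s.sum := by
      rw [hsum, Finset.sum_filter, Finset.sum_filter, List.length_cons, Finset.sum_range_succ']
      simp [add_comm]
    by_cases h : 0 ∈ S
    · refine ⟨a :: s, hs.cons_cons a, ?_⟩
      rw [key, if_pos h, List.sum_cons]
    · refine ⟨s, hs.cons a, ?_⟩
      rw [key, if_neg h, zero_add]

theorem backward (hp : ∀ a ∈ x.1, 0 < a) (h : LineVehicle (red x)) : SubsetSum x := by
  obtain ⟨_, π, hπ, hK⟩ := h
  rw [numV_red] at hπ
  have hn : π.Nodup := hπ.nodup_iff.2 List.nodup_range
  have hm : ∀ v, v ∈ π ↔ v < 2 * x.1.length + 2 := by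
    intro v
    rw [hπ.mem_iff, List.mem_range]
  have hc : 2 * x.1.length + 1 ∈ π := (hm _).2 (by omega)
  obtain ⟨π₁, π₂, h1⟩ := List.append_of_mem hc
  have h2 := backward_aux hp hn hm hK h1
  obtain ⟨s, hs, hsum⟩ := exists_sublist x.1
    ((Finset.range x.1.length).filter (fun i => 2 * i + 1 ∈ π₁))
  refine ⟨s, hs, ?_⟩
  rw [hsum, ← h2]
  congr 1
  ext i
  simp

end Backward

end Pool.Agent.H462R3.VS
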